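import Pool.Agent.Work.MP_a5099b_nt.G.Main
import Pool.Agent.Work.MP_a5099b_nt.SpecT

/-!
# Module G.Br (size M): block G over `PadicAlgCl q`

PROOFS.
* `EE_mem`: two step induction; a multiplicative operator `T` maps the closure of the `T^[i] H` into itself
  (`Submonoid.closure_induction` or `MonoidHom.map_mclosure`; `T (T^[i] H) = T^[i+1] H`, `Function.iterate_succ_apply'`).
* `loc_Phi`: `Φ = Phi q`, `G = GG q`. `GG_spec` (`C (C (q : ℤ)) = (q : ℤ[X][X])`, `Kron`), monic and degree from `isPhi`. Symmetry: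
  `PhiAt_symm` in the ring `ℤ[X][Y]` with `x = C X`, `y = Y`: `(PhiAt q (C X)).eval Y = Phi q` and
  `(PhiAt q Y).eval (C X) = swap (Phi q)` (`Bivariate.swap_apply`). `unit`: `GGAt q (n : ZMod q) n` is the reduction of
  `(GG q).evalEval n n` (`GGAt_map` for `Int.castRingHom (ZMod q)` and `GGAt q n n = (GG q).evalEval n n` over `ℤ`), `ZMod.intCast_zmod_eq_zero_iff_dvd`.
* `pt_norm`: the absolute value is the norm (`NormedField.toAbsoluteValue` or by hand), nonarchimedean by `PadicAlgCl.isNonarchimedean`;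
  `‖q‖ = 1/q` (`PadicAlgCl.norm_extends`, `padicNormE.norm_p`).
* `nb_Phi`: `sp (Phi q) x = PhiAt q x` by definition.
-/

set_option autoImplicit false

namespace Pool.Agent.SSG

open Polynomial

open scoped Polynomial.Bivariate

open Pool.Agent.SS

private theorem br_T_mem (T : ℤ[X] →* ℤ[X]) (H : ℤ[X]) {F : ℤ[X]}
    (hF : F ∈ Submonoid.closure (Set.range fun i => (T)^[i] H)) :
    T F ∈ Submonoid.closure (Set.range fun i => (T)^[i] H) := by
  induction hF using Submonoid.closure_induction with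
  | mem F hF' =>
    obtain ⟨i, rfl⟩ := hF'
    refine Submonoid.subset_closure ⟨i + 1, ?_⟩
    exact Function.iterate_succ_apply' T i H
  | one => rw [map_one]; exact Submonoid.one_mem _
  | mul F G _ _ h1 h2 => rw [map_mul]; exact Submonoid.mul_mem _ h1 h2

theorem EE_mem (T : ℤ[X] →* ℤ[X]) (H : ℤ[X]) (m : ℕ) :
    EE T H m ∈ Submonoid.closure (Set.range fun i => (T)^[i] H) := by
  have key : ∀ m, EE T H m ∈ Submonoid.closure (Set.range fun i => (T)^[i] H) ∧
      EE T H (m + 1) ∈ Submonoid.closure (Set.range fun i => (T)^[i] H) := by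
    intro m
    induction m with
    | zero => exact ⟨Submonoid.one_mem _, Submonoid.subset_closure ⟨1, rfl⟩⟩
    | succ m ih => exact ⟨ih.2, Submonoid.mul_mem _ (br_T_mem T H ih.2) ih.1⟩
  exact (key m).1

private theorem br_PhiAt {A : Type*} [CommRing A] (n : ℕ) (x : A) :
    PhiAt n x = (Phi n).map (eval₂RingHom (Int.castRingHom A) x) := rfl

private theorem br_eval {A : Type*} [CommRing A] [i : Algebra ℤ A] (Φ : ℤ[X][Y]) (x y : A) :
    (Φ.map (eval₂RingHom (Int.castRingHom A) x)).eval y = aevalAeval x y Φ := by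
  induction Φ using Polynomial.induction_on' with
  | add p q hp hq => rw [Polynomial.map_add, eval_add, hp, hq, map_add]
  | monomial n a =>
    have h : algebraMap ℤ A = Int.castRingHom A := RingHom.ext_int _ _
    simp [h, eval_map]

private theorem br_swap (Φ : ℤ[X][Y]) : aevalAeval (C X : ℤ[X][Y]) Y Φ = Φ := by
  have h := Bivariate.aevalAeval_swap (C X : ℤ[X][Y]) Y (Bivariate.swap Φ)
  rw [Bivariate.swap_swap_apply, ← Bivariate.swap_apply, Bivariate.swap_swap_apply] at h
  exact h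

theorem loc_Phi {q : ℕ} (hq : q.Prime) (h2 : q ≠ 2) {n : ℤ}
    (hn : GGAt q (n : ZMod q) (n : ZMod q) ≠ 0) : Loc q (Phi q) (GG q) n := by
  refine ⟨hq, h2, ?_, ?_, (isPhi hq).monic, (isPhi hq).deg, ?_⟩
  · have h := GG_spec hq
    rw [Kron] at h
    have hc : (C (C (q : ℤ)) : ℤ[X][X]) = (q : ℤ[X][X]) := by simp
    rw [hc] at h
    exact h
  · have h := PhiAt_symm hq (C X : ℤ[X][Y]) Y
    rw [br_PhiAt, br_PhiAt, br_eval, br_eval] at h
    exact (h.symm.trans (br_swap (Phi q)))
  · intro hd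
    apply hn
    have h1 : GGAt q n n = (GG q).evalEval n n := by
      rw [GGAt, ← map_evalRingHom_eval]
      congr 1
    have h3 := GGAt_map (n := q) (Int.castRingHom (ZMod q)) n n
    rw [h1] at h3
    simp only [eq_intCast] at h3
    rw [← h3, ZMod.intCast_zmod_eq_zero_iff_dvd]
    exact hd

/-- the norm of `PadicAlgCl q` as an absolute value -/
noncomputable def nv (q : ℕ) [Fact q.Prime] : AbsoluteValue (PadicAlgCl q) ℝ where
  toFun x := ‖x‖
  map_mul' x y := norm_mul x y
  nonneg' x := norm_nonneg x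
  eq_zero' x := norm_eq_zero
  add_le' x y := norm_add_le x y

theorem pt_norm {q : ℕ} [Fact q.Prime] {n : ℤ} {x : PadicAlgCl q}
    (h : ‖x - (n : PadicAlgCl q)‖ ≤ ‖(q : PadicAlgCl q)‖) : Pt q n (nv q) x := by
  have hn : ‖(q : PadicAlgCl q)‖ = (q : ℝ)⁻¹ := by
    rw [← map_natCast (algebraMap ℚ_[q] (PadicAlgCl q)), PadicAlgCl.norm_extends, Padic.norm_p]
  have h1 : (1 : ℝ) < q := by exact_mod_cast (Fact.out : q.Prime).one_lt
  refine ⟨PadicAlgCl.isNonarchimedean q, ?_, ?_, h⟩
  · show 0 < ‖(q : PadicAlgCl q)‖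
    rw [hn]
    positivity
  · show ‖(q : PadicAlgCl q)‖ < 1
    rw [hn]
    exact inv_lt_one_of_one_lt₀ h1

theorem nb_Phi {L : Type*} [Field L] (q : ℕ) (x : L) : nb (Phi q) x = (PhiAt q x).roots := rfl

end Pool.Agent.SSG
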