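import Mathlib

/-!
# MP_a5099b_nt, block G (local tree): definitions

`Φ` is a bivariate polynomial `Φ(X, Y)` (`R[X][Y]`, the outer variable is `Y`), monic in `Y`.
`T` is a multiplicative operator with `(T F)(x)` = product of `F(y)` over the neighbours `y` of `x` (the roots of
`Φ(x, Y)`); `SS.TT q` is one.  `EE` is the sequence `E_m` of the note: `E_0 = 1`, `E_1 = T H`, `E_(m+2) = T E_(m+1) * E_m`.
-/

set_option autoImplicit false

namespace Pool.Agent.SSG

open Polynomial

open scoped Polynomial.Bivariate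

/-- `E_0 = 1`, `E_1 = T H`, `E_(m+2) = T E_(m+1) * E_m` -/
noncomputable def EE (T : ℤ[X] →* ℤ[X]) (H : ℤ[X]) : ℕ → ℤ[X]
  | 0 => 1
  | 1 => T H
  | (m + 2) => T (EE T H (m + 1)) * EE T H m

/-- `Φ(x, Y)` for an integral polynomial `Φ` and `x ∈ L` -/
noncomputable def sp {L : Type*} [CommRing L] (Φ : ℤ[X][Y]) (x : L) : L[X] :=
  Φ.map (aeval x : ℤ[X] →ₐ[ℤ] L).toRingHom

/-- `Φ(x, y)` -/
noncomputable def ev {L : Type*} [CommRing L] (Φ : ℤ[X][Y]) (x y : L) : L := (sp Φ x).eval y

/-- the neighbours of `x`: the roots of `Φ(x, Y)` -/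
noncomputable def nb {L : Type*} [Field L] (Φ : ℤ[X][Y]) (x : L) : Multiset L := (sp Φ x).roots

section Tree

variable {V : Type*}

open Classical in
/-- The points of level `m + 1` of the tree of non-backtracking walks from `j` together with their
parents: pairs (parent, point). -/
noncomputable def S (n : V → Multiset V) (j : V) : ℕ → Multiset (V × V)
  | 0 => (n j).map fun y => (j, y)
  | (m + 1) => (S n j m).bind fun p => ((n p.2).erase p.1).map fun y => (p.2, y)

/-- product of `F` over the points of level `m`; the only point of level `0` is `j` -/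
noncomputable def NN (n : V → Multiset V) (j : V) (F : V → ℝ) : ℕ → ℝ
  | 0 => F j
  | (m + 1) => ((S n j m).map fun p => F p.2).prod

/-- `(T F)(x)` = product of `F` over the neighbours of `x` -/
noncomputable def Tf (n : V → Multiset V) (F : V → ℝ) (x : V) : ℝ := ((n x).map F).prod

/-- `e_0 = 1`, `e_1 = T F`, `e_(m+2) = T e_(m+1) * e_m` -/
noncomputable def ef (n : V → Multiset V) (F : V → ℝ) : ℕ → V → ℝ
  | 0 => fun _ => 1
  | 1 => Tf n F
  | (m + 2) => fun x => Tf n (ef n F (m + 1)) x * ef n F m x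

end Tree

/-- number of points of level `m + 1` -/
def DD (q m : ℕ) : ℕ := q ^ m * (q + 1)

/-- The local situation: `q` an odd prime, `Φ = (X^q - Y)(X - Y^q) + q G` symmetric and monic of degree `q + 1` in
`Y`, `a` an integer with `q ∤ G(a, a)`. -/
structure Loc (q : ℕ) (Φ G : ℤ[X][Y]) (a : ℤ) : Prop where
  prime : q.Prime
  two : q ≠ 2
  kron : Φ = (C (X ^ q) - X) * (C X - X ^ q) + (q : ℤ[X][Y]) * G
  symm : Bivariate.swap Φ = Φ
  monic : Φ.Monic
  deg : Φ.natDegree = q + 1
  unit : ¬ (q : ℤ) ∣ G.evalEval a a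

/-- `v` is a nonarchimedean absolute value of the field `L` with `v q < 1` and `0 < v q`, and `j` is an element with
`v (j - a) ≤ v q`. -/
structure Pt {L : Type*} [Field L] (q : ℕ) (a : ℤ) (v : AbsoluteValue L ℝ) (j : L) : Prop where
  na : IsNonarchimedean v
  pos : 0 < v (q : L)
  lt : v (q : L) < 1
  close : v (j - a) ≤ v (q : L)

end Pool.Agent.SSG
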