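import Pool.Agent.Work.MP_a5099b_nt.G.ParC

/-!
# Module G.Fin (size S-M): parity of the exponent

PROOF. `c` from `exists_coeff`. By strong induction on `i < m` the number `NN n j F i` is an integral power of `ρ`: for `i = 0` it is `F j`;
for `1 ≤ i < m` divide `ef n F i j = (NN n j F i)^1 * ∏_{k < i} (NN n j F k)^(c i k)` (`Finset.prod_range_succ`).
For `m`: `ef n F m j = ρ^M * ∏_{k<m} (ρ^(z k))^(c m k)`, exponent `M + ∑ z k * c m k`, the `c m k` are even.
-/

set_option autoImplicit false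

namespace Pool.Agent.SSG

variable {V : Type*} {n : V → Multiset V} {j : V} {q : ℕ}

private theorem prod_zpow {ρ : ℝ} (h0 : 0 < ρ) {f : ℕ → ℝ} {c : ℕ → ℕ} (s : Finset ℕ)
    (hf : ∀ i ∈ s, ∃ z : ℤ, f i = ρ ^ z) :
    ∃ z : ℤ, (∏ i ∈ s, f i ^ c i = ρ ^ z) ∧ ((∀ i ∈ s, Even (c i)) → Even z) := by
  induction s using Finset.induction_on with
  | empty => exact ⟨0, by simp, fun _ => Even.zero⟩
  | insert k s hk ih =>
    obtain ⟨z, hz, hev⟩ := ih fun i hi => hf i (Finset.mem_insert_of_mem hi)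
    obtain ⟨w, hw⟩ := hf k (Finset.mem_insert_self k s)
    refine ⟨w * c k + z, ?_, fun he => ?_⟩
    · rw [Finset.prod_insert hk, hz, hw, zpow_add₀ h0.ne', zpow_mul, zpow_natCast]
    · refine Even.add ?_ (hev fun i hi => he i (Finset.mem_insert_of_mem hi))
      have := he k (Finset.mem_insert_self k s)
      exact Even.mul_left (by exact_mod_cast this) w

theorem final_parity (hq : Odd q) (hc : ∀ x, Multiset.card (n x) = q + 1)
    (hs : ∀ x y, y ∈ n x → x ∈ n y) {ρ : ℝ} (h0 : 0 < ρ) {F : V → ℝ}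
    (hj : ∃ z : ℤ, F j = ρ ^ z) {m : ℕ} (hm : 1 ≤ m)
    (hi : ∀ i, i < m → ∃ z : ℤ, ef n F i j = ρ ^ z) {M : ℕ} (hN : NN n j F m = ρ ^ M) :
    ∃ z : ℤ, ef n F m j = ρ ^ z ∧ z ≡ M [ZMOD 2] := by
  obtain ⟨c, h1, h2, h3⟩ := exists_coeff (j := j) hq hc hs
  have key : ∀ i, i < m → ∃ z : ℤ, NN n j F i = ρ ^ z := by
    intro i
    induction i using Nat.strong_induction_on with
    | _ i ih =>
      intro him
      rcases Nat.eq_zero_or_pos i with rfl | hpos
      · exact hj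
      · obtain ⟨z, hz⟩ := hi i him
        have h4 := h3 F i
        rw [Finset.prod_range_succ, h1 i hpos, pow_one, hz] at h4
        obtain ⟨w, hw, -⟩ := prod_zpow h0 (f := fun k => NN n j F k) (c := c i) (Finset.range i)
          fun k hk => ih k (Finset.mem_range.1 hk) ((Finset.mem_range.1 hk).trans him)
        rw [hw] at h4
        refine ⟨z - w, ?_⟩
        rw [zpow_sub₀ h0.ne', h4, mul_div_cancel_left₀ _ (zpow_pos h0 w).ne']
  obtain ⟨w, hw, hev⟩ := prod_zpow h0 (f := fun k => NN n j F k) (c := c m) (Finset.range m)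
    fun k hk => key k (Finset.mem_range.1 hk)
  have h4 := h3 F m
  rw [Finset.prod_range_succ, h1 m hm, pow_one, hw, hN] at h4
  refine ⟨w + M, ?_, ?_⟩
  · rw [h4, zpow_add₀ h0.ne', zpow_natCast]
  · have hw2 : Even w := hev fun k hk => h2 m k (Finset.mem_range.1 hk).ne
    obtain ⟨r, hr⟩ := hw2
    rw [Int.modEq_iff_dvd]
    exact ⟨-r, by rw [hr]; ring⟩

end Pool.Agent.SSG
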