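import Pool.Agent.Work.MP_a5099b_nt.G.Lev0

/-!
# Module G.HVal (size M): values of `H` near `j`

PROOF. Write `H = ∑ c_k (X - a)^k` with integers `c_k` (`Polynomial.taylor a H`, `Polynomial.sum_taylor_eq`-type lemma, or
`H.comp (X + C a)`). Modulo `q`, `(X - a)^M` divides `H` and `(X - a)^(M+1)` does not (`H` is monic, so its reduction is not
zero): `q ∣ c_k` for `k < M` and `q ∤ c_M` (`rootMultiplicity`, `Polynomial.le_rootMultiplicity_iff`, the Taylor expansion commutes
with the reduction: `taylor` of the map; `X ^ M` divides iff the coefficients below `M` vanish). Put `s = x - a = (x - j) + (j - a)`,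
`v (j - a) ≤ v q < v (x - j)` (because `v (x - j)^D = v q < 1`, `D ≥ 2`), so `v s = v (x - j) =: b`, `b < 1`. `v (c_k s^k) ≤ v q = b^D < b^M` for `k < M`;
`v (c_M s^M) = b^M`; `v (c_k s^k) ≤ b^(M+1) < b^M` for `k > M`. So `v (H(x)) = b^M`.
-/

set_option autoImplicit false

namespace Pool.Agent.SSG

open Polynomial

variable {L : Type*} [Field L] {q : ℕ} {a : ℤ} {v : AbsoluteValue L ℝ} {j : L}

private theorem v_add_eq (hp : Pt q a v j) {A B : L} (h : v B < v A) : v (A + B) = v A := by
  refine le_antisymm ((hp.na A B).trans (max_le le_rfl h.le)) ?_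
  have h1 : v A ≤ max (v (A + B)) (v (-B)) := by
    have := hp.na (A + B) (-B)
    rwa [add_neg_cancel_right] at this
  rw [AbsoluteValue.map_neg] at h1
  rcases le_max_iff.1 h1 with h2 | h2
  · exact h2
  · exact absurd h2 (not_le.2 h)

private theorem v_sum_lt (hp : Pt q a v j) {ι : Type*} (s : Finset ι) (f : ι → L) {c : ℝ}
    (hc : 0 < c) (h : ∀ i ∈ s, v (f i) < c) : v (∑ i ∈ s, f i) < c := by
  classical
  induction s using Finset.induction_on with
  | empty => simpa using hc
  | insert i s hi ih =>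
    rw [Finset.sum_insert hi]
    refine lt_of_le_of_lt (hp.na _ _) (max_lt (h i (Finset.mem_insert_self i s)) ?_)
    exact ih (fun k hk => h k (Finset.mem_insert_of_mem hk))

theorem v_H (hq : q.Prime) (hp : Pt q a v j) {H : ℤ[X]} (hH : H.Monic) {M : ℕ}
    (hM : (H.map (Int.castRingHom (ZMod q))).rootMultiplicity (a : ZMod q) = M) {x : L} {D : ℕ}
    (hD : M < D) (h2 : 2 ≤ D) (hx : v (x - j) ^ D = v (q : L)) :
    v (aeval x H) = v (x - j) ^ M := by
  have : Fact q.Prime := ⟨hq⟩
  set b : ℝ := v (x - j) with hb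
  have hb0 : 0 < b := by
    rcases (v.nonneg (x - j)).lt_or_eq with h | h
    · exact h
    · exfalso
      have h3 : b = 0 := h.symm
      rw [h3, zero_pow (by omega)] at hx
      exact hp.pos.ne hx
  have hb1 : b < 1 := by
    by_contra hcon
    push Not at hcon
    have := one_le_pow₀ hcon (n := D)
    rw [hx] at this
    exact absurd hp.lt (not_lt.2 this)
  have hqb : v (q : L) < b := by
    rw [← hx]
    calc b ^ D < b ^ 1 := pow_lt_pow_right_of_lt_one₀ hb0 hb1 (by omega)
      _ = b := pow_one b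
  have hs : v (x - a) = b := by
    have h3 : x - a = (x - j) + (j - a) := by ring
    rw [h3, hb]
    exact v_add_eq hp (lt_of_le_of_lt hp.close hqb)
  -- the Taylor expansion
  have hT : aeval x H = aeval (x - (a : L)) (H.comp (X + C a)) := by
    rw [aeval_comp]
    congr 1
    simp
  have hne : H.map (Int.castRingHom (ZMod q)) ≠ 0 := (hH.map _).ne_zero
  have hmap : (H.comp (X + C a)).map (Int.castRingHom (ZMod q)) =
      (H.map (Int.castRingHom (ZMod q))).comp (X + C (a : ZMod q)) := by
    rw [Polynomial.map_comp]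
    congr 1
    simp
  have htr : ((H.comp (X + C a)).map (Int.castRingHom (ZMod q))).natTrailingDegree = M := by
    rw [hmap, ← rootMultiplicity_eq_natTrailingDegree, hM]
  have hne2 : (H.comp (X + C a)).map (Int.castRingHom (ZMod q)) ≠ 0 := by
    rw [hmap]
    intro h0
    exact hne (comp_X_add_C_eq_zero_iff.1 h0)
  have hlow : ∀ k < M, (q : ℤ) ∣ (H.comp (X + C a)).coeff k := by
    intro k hk
    rw [← htr] at hk
    have := coeff_eq_zero_of_lt_natTrailingDegree hk
    rw [coeff_map] at this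
    exact (ZMod.intCast_zmod_eq_zero_iff_dvd _ q).1 this
  have hMc : ¬ (q : ℤ) ∣ (H.comp (X + C a)).coeff M := by
    intro h0
    have h3 := (ZMod.intCast_zmod_eq_zero_iff_dvd _ q).2 h0
    have h4 : ((H.comp (X + C a)).map (Int.castRingHom (ZMod q))).coeff M = 0 := by
      rw [coeff_map]
      exact h3
    rw [← htr] at h4
    exact hne2 (coeff_natTrailingDegree_eq_zero.1 h4)
  have hMlt : M < (H.comp (X + C a)).natDegree + 1 := by
    by_contra hcon
    push Not at hcon
    apply hMc
    rw [coeff_eq_zero_of_natDegree_lt (by omega)]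
    exact dvd_zero _
  rw [hT, aeval_eq_sum_range]
  rw [← Finset.add_sum_erase _ _ (Finset.mem_range.2 hMlt)]
  have hterm : v ((H.comp (X + C a)).coeff M • (x - (a : L)) ^ M) = b ^ M := by
    rw [zsmul_eq_mul, map_mul, map_pow, hs, v_unit hq hp hMc, one_mul]
  rw [v_add_eq hp, hterm]
  rw [hterm]
  refine v_sum_lt hp _ _ (pow_pos hb0 _) (fun k hk => ?_)
  rw [zsmul_eq_mul, map_mul, map_pow, hs]
  have hkM : k ≠ M := Finset.ne_of_mem_erase hk
  rcases lt_or_gt_of_ne hkM with h3 | h3
  · calc v (((H.comp (X + C a)).coeff k : ℤ) : L) * b ^ k ≤ v (q : L) * 1 :=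
        mul_le_mul (v_dvd hp (hlow k h3)) (pow_le_one₀ hb0.le hb1.le) (pow_nonneg hb0.le _)
          (v.nonneg _)
      _ = b ^ D := by rw [mul_one, hx]
      _ < b ^ M := pow_lt_pow_right_of_lt_one₀ hb0 hb1 hD
  · calc v (((H.comp (X + C a)).coeff k : ℤ) : L) * b ^ k ≤ 1 * b ^ k :=
        mul_le_mul_of_nonneg_right (v_int hp _) (pow_nonneg hb0.le _)
      _ = b ^ k := one_mul _
      _ < b ^ M := pow_lt_pow_right_of_lt_one₀ hb0 hb1 h3

end Pool.Agent.SSG
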