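import Pool.Agent.Work.MP_a5099b_nt.G.Res

/-!
# Module G.Lev0 (size M): congruences

`v` is a nonarchimedean absolute value, `x ≡ y` modulo `c` means `v (x - y) ≤ c`.

PROOFS. `v_int`: `IsNonarchimedean.apply_intCast_le_one`. `v_unit`: `n` and `q` coprime, `u n + w q = 1`, so `1 ≤ max (v n) (v q)` and
`v q < 1`. `v_dvd`: `n = q k`. `v_root`: a root `y` of a monic polynomial with coefficients of absolute value `≤ 1` has
`v y ≤ 1` (the coefficients of `sp Φ x` are `aeval x` of integral polynomials; `Lev0.v_aeval`). `v_aeval_sub`, `v_ev_sub`: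
`P(x) - P(x')` is `x - x'` times an integral polynomial in `x, x'` (`Polynomial.sub_dvd_eval_sub` or induction on the
polynomial: `Polynomial.induction_on'`; for `ev` use additivity and monomials). `ev_int`, `ev_kron`: `sp`, `ev` are ring homomorphisms in `Φ`.
`frob`: `(x + b)^q - x^q - b^q` is `q` times an integral polynomial in `x, b` (`add_pow_le_pow_mul_pow_of_sq_le_sq` no; use
`add_pow`, the binomial coefficients `q.choose i`, `0 < i < q`, are divisible by `q`: `Nat.Prime.dvd_choose_self`; or Mathlib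
`exists_add_pow_prime_eq`). `v_j`: `j ^ q ≡ a ^ q ≡ a ≡ j` modulo `v q` (`Int.ModEq.pow_card_sub_one_eq_one` / `ZMod.pow_card`: `q ∣ a^q - a`).
-/

set_option autoImplicit false

namespace Pool.Agent.SSG

open Polynomial

open scoped Polynomial.Bivariate

variable {L : Type*} [Field L] {q : ℕ} {Φ G : ℤ[X][Y]} {a : ℤ} {v : AbsoluteValue L ℝ} {j : L}

private theorem v_add (hp : Pt q a v j) {x y : L} {c : ℝ} (hx : v x ≤ c) (hy : v y ≤ c) :
    v (x + y) ≤ c := (hp.na x y).trans (max_le hx hy)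

private theorem v_sub (hp : Pt q a v j) {x y : L} {c : ℝ} (hx : v x ≤ c) (hy : v y ≤ c) :
    v (x - y) ≤ c := by
  rw [sub_eq_add_neg]
  exact v_add hp hx (by rwa [v.map_neg])

private theorem v_mul {x y : L} {c : ℝ} (hx : v x ≤ c) (hy : v y ≤ 1) : v (x * y) ≤ c := by
  rw [v.map_mul]
  calc v x * v y ≤ v x * 1 := mul_le_mul_of_nonneg_left hy (v.nonneg x)
    _ ≤ c := by rwa [mul_one]

private theorem v_mul' {x y : L} {c : ℝ} (hx : v x ≤ 1) (hy : v y ≤ c) : v (x * y) ≤ c := by
  rw [mul_comm]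
  exact v_mul hy hx

private theorem v_pow1 {x : L} (hx : v x ≤ 1) (n : ℕ) : v (x ^ n) ≤ 1 := by
  rw [v.map_pow]
  exact pow_le_one₀ (v.nonneg x) hx

theorem v_int (hp : Pt q a v j) (n : ℤ) : v (n : L) ≤ 1 := by
  have hn : ∀ m : ℕ, v (m : L) ≤ 1 := by
    intro m
    induction m with
    | zero => simp
    | succ m ih =>
      rw [Nat.cast_succ]
      exact v_add hp ih v.map_one.le
  obtain ⟨m, rfl | rfl⟩ := Int.eq_nat_or_neg n
  · simpa using hn m
  · rw [Int.cast_neg, v.map_neg]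
    simpa using hn m

theorem v_dvd (hp : Pt q a v j) {n : ℤ} (hn : (q : ℤ) ∣ n) : v (n : L) ≤ v (q : L) := by
  obtain ⟨k, rfl⟩ := hn
  rw [Int.cast_mul, Int.cast_natCast]
  exact v_mul le_rfl (v_int hp k)

theorem v_unit (hq : q.Prime) (hp : Pt q a v j) {n : ℤ} (hn : ¬ (q : ℤ) ∣ n) : v (n : L) = 1 := by
  apply le_antisymm (v_int hp n)
  obtain ⟨u, w, huw⟩ := ((Nat.prime_iff_prime_int.1 hq).coprime_iff_not_dvd).2 hn
  have h1 : ((1 : ℤ) : L) = (q : L) * (u : L) + (n : L) * (w : L) := by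
    rw [← huw]
    push_cast
    ring
  by_contra hlt
  push Not at hlt
  have h2 : v ((1 : ℤ) : L) ≤ max (v (q : L)) (v (n : L)) := by
    rw [h1]
    exact v_add hp (v_mul (le_max_left _ _) (v_int hp u)) (v_mul (le_max_right _ _) (v_int hp w))
  rw [Int.cast_one, v.map_one] at h2
  rcases le_max_iff.1 h2 with h3 | h3
  · exact absurd h3 (not_le.2 hp.lt)
  · exact absurd h3 (not_le.2 hlt)

theorem v_j_le (hp : Pt q a v j) : v j ≤ 1 := by
  have h : j = (j - a) + a := by ring
  rw [h]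
  exact v_add hp (hp.close.trans hp.lt.le) (v_int hp a)

theorem v_aeval (hp : Pt q a v j) (P : ℤ[X]) {x : L} (hx : v x ≤ 1) : v (aeval x P) ≤ 1 := by
  induction P using Polynomial.induction_on' with
  | add P Q hP hQ => rw [map_add]; exact v_add hp hP hQ
  | monomial n c =>
    rw [aeval_monomial]
    refine v_mul ?_ (v_pow1 hx n)
    simpa using v_int hp c

private noncomputable def evH (x y : L) : ℤ[X][Y] →+* L :=
  (evalRingHom y).comp (mapRingHom (aeval x : ℤ[X] →ₐ[ℤ] L).toRingHom)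

private theorem evH_apply (x y : L) (P : ℤ[X][Y]) : ev P x y = evH x y P := rfl

private theorem ev_add (P Q : ℤ[X][Y]) (x y : L) : ev (P + Q) x y = ev P x y + ev Q x y := by
  rw [evH_apply, map_add]
  rfl

private theorem ev_monomial (n : ℕ) (c : ℤ[X]) (x y : L) :
    ev (monomial n c) x y = aeval x c * y ^ n := by
  unfold ev sp
  rw [map_monomial, eval_monomial]
  rfl

theorem v_ev (hp : Pt q a v j) (P : ℤ[X][Y]) {x y : L} (hx : v x ≤ 1) (hy : v y ≤ 1) :
    v (ev P x y) ≤ 1 := by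
  induction P using Polynomial.induction_on' with
  | add P Q hP hQ => rw [ev_add]; exact v_add hp hP hQ
  | monomial n c =>
    rw [ev_monomial]
    exact v_mul (v_aeval hp c hx) (v_pow1 hy n)

private theorem v_pow_sub (hp : Pt q a v j) {x x' : L} (hx : v x ≤ 1) (hx' : v x' ≤ 1)
    {c : ℝ} (h1 : v (x - x') ≤ c) (n : ℕ) : v (x ^ n - x' ^ n) ≤ c := by
  induction n with
  | zero =>
    rw [pow_zero, pow_zero, sub_self, v.map_zero]
    exact (v.nonneg _).trans h1
  | succ n ih =>
    have e : x ^ (n + 1) - x' ^ (n + 1) = (x - x') * x ^ n + (x ^ n - x' ^ n) * x' := by ring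
    rw [e]
    exact v_add hp (v_mul h1 (v_pow1 hx n)) (v_mul ih hx')

theorem v_aeval_sub (hp : Pt q a v j) (P : ℤ[X]) {x x' : L} (hx : v x ≤ 1) (hx' : v x' ≤ 1)
    {c : ℝ} (h1 : v (x - x') ≤ c) : v (aeval x P - aeval x' P) ≤ c := by
  induction P using Polynomial.induction_on' with
  | add P Q hP hQ =>
    have e : aeval x (P + Q) - aeval x' (P + Q) =
        (aeval x P - aeval x' P) + (aeval x Q - aeval x' Q) := by
      rw [map_add, map_add]; ring
    rw [e]
    exact v_add hp hP hQ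
  | monomial n b =>
    rw [aeval_monomial, aeval_monomial, ← mul_sub]
    refine v_mul' ?_ (v_pow_sub hp hx hx' h1 n)
    simpa using v_int hp b

theorem v_ev_sub (hp : Pt q a v j) (P : ℤ[X][Y]) {x y x' y' : L} (hx : v x ≤ 1) (hy : v y ≤ 1)
    (hx' : v x' ≤ 1) (hy' : v y' ≤ 1) {c : ℝ} (h1 : v (x - x') ≤ c) (h2 : v (y - y') ≤ c) :
    v (ev P x y - ev P x' y') ≤ c := by
  induction P using Polynomial.induction_on' with
  | add P Q hP hQ =>
    have e : ev (P + Q) x y - ev (P + Q) x' y' =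
        (ev P x y - ev P x' y') + (ev Q x y - ev Q x' y') := by
      rw [ev_add, ev_add]; ring
    rw [e]
    exact v_add hp hP hQ
  | monomial n b =>
    rw [ev_monomial, ev_monomial]
    have e : aeval x b * y ^ n - aeval x' b * y' ^ n =
        (aeval x b - aeval x' b) * y ^ n + aeval x' b * (y ^ n - y' ^ n) := by ring
    rw [e]
    exact v_add hp (v_mul (v_aeval_sub hp b hx hx' h1) (v_pow1 hy n))
      (v_mul' (v_aeval hp b hx') (v_pow_sub hp hy hy' h2 n))

theorem ev_int (P : ℤ[X][Y]) (b c : ℤ) : ev P (b : L) (c : L) = ((P.evalEval b c : ℤ) : L) := by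
  induction P using Polynomial.induction_on' with
  | add P Q hP hQ => rw [ev_add, hP, hQ, evalEval_add, Int.cast_add]
  | monomial n A =>
    rw [ev_monomial, evalEval, eval_monomial, eval_mul, eval_pow, eval_C, Int.cast_mul, Int.cast_pow]
    congr 1
    rw [aeval_def, eval₂_eq_eval_map]
    exact eval_intCast_map (Int.castRingHom L) A b

theorem ev_kron (h : Loc q Φ G a) (x y : L) :
    ev Φ x y = (x ^ q - y) * (x - y ^ q) + (q : L) * ev G x y := by
  have hC : ∀ c : ℤ[X], evH x y (C c) = aeval x c := by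
    intro c
    rw [← evH_apply]
    simp [ev, sp]
  have hX : evH x y (X : ℤ[X][Y]) = y := by
    rw [← evH_apply]
    simp [ev, sp]
  have h1 : ev Φ x y = evH x y ((C (X ^ q) - X) * (C X - X ^ q) + (q : ℤ[X][Y]) * G) := by
    rw [evH_apply]
    congr 1
    exact h.kron
  have hXX : evH x y (C X : ℤ[X][Y]) = x := by rw [hC, aeval_X]
  rw [h1]
  simp only [map_add, map_mul, map_sub, map_pow, hXX, hX, map_natCast]
  rfl

theorem v_root (h : Loc q Φ G a) (hp : Pt q a v j) {x y : L} (hx : v x ≤ 1) (hy : ev Φ x y = 0) :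
    v y ≤ 1 := by
  by_contra hlt
  push Not at hlt
  have hm := sp_monic h.monic x
  have hd : (sp Φ x).natDegree = q + 1 := by
    unfold sp
    rw [h.monic.natDegree_map, h.deg]
  have h1 : ev Φ x y = ∑ i ∈ Finset.range (q + 1), (sp Φ x).coeff i * y ^ i + y ^ (q + 1) := by
    unfold ev
    rw [eval_eq_sum_range, hd, Finset.sum_range_succ]
    congr 1
    have : (sp Φ x).coeff (q + 1) = 1 := by
      rw [← hd]; exact hm
    rw [this, one_mul]
  rw [hy] at h1
  have h2 : ∀ k, k ≤ q + 1 → v (∑ i ∈ Finset.range k, (sp Φ x).coeff i * y ^ i) ≤ v y ^ q := by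
    intro k hk
    induction k with
    | zero =>
      rw [Finset.range_zero, Finset.sum_empty, v.map_zero]
      exact pow_nonneg (v.nonneg y) q
    | succ k ih =>
      rw [Finset.sum_range_succ]
      refine v_add hp (ih (by omega)) ?_
      refine v_mul' ?_ ?_
      · unfold sp
        rw [coeff_map]
        exact v_aeval hp _ hx
      · rw [v.map_pow]
        exact pow_le_pow_right₀ hlt.le (by omega)
  have h3 := h2 (q + 1) le_rfl
  have h4 : ∑ i ∈ Finset.range (q + 1), (sp Φ x).coeff i * y ^ i = - y ^ (q + 1) :=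
    eq_neg_of_add_eq_zero_left h1.symm
  rw [h4, v.map_neg, v.map_pow, pow_succ] at h3
  have h5 : 0 < v y ^ q := pow_pos (zero_lt_one.trans hlt) q
  have h6 : v y ^ q * 1 < v y ^ q * v y := mul_lt_mul_of_pos_left hlt h5
  rw [mul_one] at h6
  exact absurd h3 (not_le.2 h6)

theorem frob (hq : q.Prime) (hp : Pt q a v j) {x b : L} (hx : v x ≤ 1) (hb : v b ≤ 1) :
    v ((x + b) ^ q - x ^ q - b ^ q) ≤ v (q : L) := by
  obtain ⟨r, hr⟩ := exists_add_pow_prime_eq hq (C X : ℤ[X][Y]) X
  have hC : evH x b (C X : ℤ[X][Y]) = x := by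
    rw [← evH_apply]
    simp [ev, sp]
  have hX : evH x b (X : ℤ[X][Y]) = b := by
    rw [← evH_apply]
    simp [ev, sp]
  have h1 := congrArg (evH x b) hr
  simp only [map_add, map_mul, map_pow, map_natCast, hC, hX] at h1
  have h2 : (x + b) ^ q - x ^ q - b ^ q = (q : L) * (x * b * evH x b r) := by
    rw [h1]; ring
  rw [h2]
  refine v_mul le_rfl (v_mul (v_mul hx hb) ?_)
  rw [← evH_apply]
  exact v_ev hp r hx hb

theorem v_j (hq : q.Prime) (hp : Pt q a v j) : v (j ^ q - j) ≤ v (q : L) := by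
  have e : j ^ q - j = ((j ^ q - (a : L) ^ q) + ((a ^ q - a : ℤ) : L)) - (j - a) := by
    push_cast; ring
  rw [e]
  refine v_sub hp (v_add hp (v_pow_sub hp (v_j_le hp) (v_int hp a) hp.close q) (v_dvd hp ?_)) hp.close
  have : Fact q.Prime := ⟨hq⟩
  rw [← ZMod.intCast_zmod_eq_zero_iff_dvd]
  push_cast
  rw [ZMod.pow_card, sub_self]

end Pool.Agent.SSG
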