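import Pool.Agent.Work.MP_a5099b_nt.G.LevU

/-!
# Module G.Lev1 (size S-M): the neighbours of `j`

PROOF. `t = y - j`, `c = v t < 1` (`near`), `v (j^q - y) * v (j - y^q) = v q` (`prod_eq`). `j^q - y = (j^q - j) - t`, `v (j^q - j) ≤ v q`;
`j - y^q = (j - j^q) - t^q - (y^q - j^q - t^q)`, the last term and the first have absolute value `≤ v q` (`frob`, `v_j`).
If `c ≤ v q`: both factors are `≤ v q`, product `≤ (v q)^2 < v q`. So `c > v q` and the first factor is `c`. If
`c^q ≤ v q`: the second factor is `≤ v q`, the product is `≤ c * v q < v q`. So `c^q > v q`, the second factor is `c^q` and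
`c^(q+1) = v q`.
-/

set_option autoImplicit false

namespace Pool.Agent.SSG

open Polynomial

open scoped Polynomial.Bivariate

variable {L : Type*} [Field L] {q : ℕ} {Φ G : ℤ[X][Y]} {a : ℤ} {v : AbsoluteValue L ℝ} {j : L}

private theorem w_add (hp : Pt q a v j) {x y : L} {c : ℝ} (hx : v x ≤ c) (hy : v y ≤ c) :
    v (x + y) ≤ c := (hp.na x y).trans (max_le hx hy)

private theorem w_sub (hp : Pt q a v j) {x y : L} {c : ℝ} (hx : v x ≤ c) (hy : v y ≤ c) :
    v (x - y) ≤ c := by
  rw [sub_eq_add_neg]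
  exact w_add hp hx (by rwa [v.map_neg])

/-- if `v A < v B` then `v (A - B) = v B` -/
private theorem w_eq (hp : Pt q a v j) {A B : L} (h : v A < v B) : v (A - B) = v B := by
  apply le_antisymm (w_sub hp h.le le_rfl)
  by_contra h1
  push Not at h1
  have e : B = A - (A - B) := by ring
  have h2 : v B ≤ max (v A) (v (A - B)) := by
    conv_lhs => rw [e]
    exact w_sub hp (le_max_left _ _) (le_max_right _ _)
  exact absurd h2 (not_le.2 (max_lt h h1))

theorem level_one (h : Loc q Φ G a) (hp : Pt q a v j) {y : L} (hy : ev Φ j y = 0) :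
    v (y - j) ^ (q + 1) = v (q : L) := by
  have hjj : v (j - j) < 1 := by
    rw [sub_self, v.map_zero]
    exact zero_lt_one
  have hc1 := near h hp hjj hy
  have hprod := prod_eq h hp hjj hy
  have hj := v_j_le hp
  have hjq := v_j h.prime hp
  have hjq' : v (j - j ^ q) ≤ v (q : L) := by
    rw [← v.map_neg, neg_sub]; exact hjq
  have hfr := frob h.prime hp hj hc1.le
  have hq0 : 0 < v (q : L) := hp.pos
  set t := y - j with ht
  have e1 : j ^ q - y = (j ^ q - j) - t := by rw [ht]; ring
  have e2 : j - y ^ q = ((j - j ^ q) - ((j + t) ^ q - j ^ q - t ^ q)) - t ^ q := by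
    have : j + t = y := by rw [ht]; ring
    rw [this]; ring
  have hA : v ((j - j ^ q) - ((j + t) ^ q - j ^ q - t ^ q)) ≤ v (q : L) := w_sub hp hjq' hfr
  have h1 : v (q : L) < v t := by
    by_contra hle
    push Not at hle
    have h2 : v (j ^ q - y) ≤ v (q : L) := by
      rw [e1]; exact w_sub hp hjq hle
    have h3 : v (t ^ q) ≤ v (q : L) := by
      rw [v.map_pow]
      exact (pow_le_of_le_one (v.nonneg t) hc1.le h.prime.ne_zero).trans hle
    have h4 : v (j - y ^ q) ≤ v (q : L) := by
      rw [e2]; exact w_sub hp hA h3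
    have h5 : v (j ^ q - y) * v (j - y ^ q) ≤ v (q : L) * v (q : L) :=
      mul_le_mul h2 h4 (v.nonneg _) hq0.le
    rw [hprod] at h5
    have h6 : v (q : L) * v (q : L) < v (q : L) * 1 := mul_lt_mul_of_pos_left hp.lt hq0
    rw [mul_one] at h6
    exact absurd h5 (not_le.2 h6)
  have h2 : v (j ^ q - y) = v t := by
    rw [e1]
    exact w_eq hp (lt_of_le_of_lt hjq h1)
  have h3 : v (q : L) < v (t ^ q) := by
    by_contra hle
    push Not at hle
    have h4 : v (j - y ^ q) ≤ v (q : L) := by
      rw [e2]; exact w_sub hp hA hle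
    have h5 : v (j ^ q - y) * v (j - y ^ q) ≤ v t * v (q : L) := by
      rw [h2]; exact mul_le_mul_of_nonneg_left h4 (v.nonneg _)
    rw [hprod] at h5
    have h6 : v t * v (q : L) < 1 * v (q : L) := mul_lt_mul_of_pos_right hc1 hq0
    rw [one_mul] at h6
    exact absurd h5 (not_le.2 h6)
  have h4 : v (j - y ^ q) = v (t ^ q) := by
    rw [e2]
    exact w_eq hp (lt_of_le_of_lt hA h3)
  rw [h2, h4, v.map_pow] at hprod
  rw [pow_succ, mul_comm]
  exact hprod

end Pool.Agent.SSG
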