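import Pool.Agent.Work.MP_a5099b_nt.G.LevU

/-!
# Module G.LevA (size M): upper bound at higher levels

PROOF. `b = x - j`, `v b ^ D = v q`, `D ≥ q + 1`, so `v b < 1`, `v q < v b`, `v q ≤ (v b)^(q+1)` (powers of a number `< 1`). `t = y - j`, `c = v t < 1`
(`near`), `v (x^q - y) * v (x - y^q) = v q`. Suppose `c^q > v b`. `x^q - y = b^q - t + e1` with `v e1 ≤ v q`
(`e1 = (j + b)^q - j^q - b^q + (j^q - j)`), `x - y^q = b - t^q + e2`, `v e2 ≤ v q` (`e2 = j - j^q - ((j + t)^q - j^q - t^q)`).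
`c^q > v b > v q` gives `v (x - y^q) = c^q`; `c > (v b)^q` (as `c^q > v b ≥ (v b)^(q^2)`) and `c > v q` give `v (x^q - y) = c`. So
`c^(q+1) = v q ≤ (v b)^(q+1)`, `c ≤ v b < c^q`, contradiction with `c < 1`.
-/

set_option autoImplicit false

namespace Pool.Agent.SSG

open Polynomial

open scoped Polynomial.Bivariate

variable {L : Type*} [Field L] {q : ℕ} {Φ G : ℤ[X][Y]} {a : ℤ} {v : AbsoluteValue L ℝ} {j : L}

private theorem v_add_eq (hna : IsNonarchimedean v) {u w : L} (h : v w < v u) : v (u + w) = v u := by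
  apply le_antisymm
  · exact (hna u w).trans (max_le le_rfl h.le)
  · have h1 : v u ≤ max (v (u + w)) (v (-w)) := by
      have := hna (u + w) (-w)
      rwa [add_neg_cancel_right] at this
    rw [AbsoluteValue.map_neg] at h1
    rcases le_max_iff.1 h1 with h2 | h2
    · exact h2
    · exact absurd h2 (not_le.2 h)

theorem level_le (h : Loc q Φ G a) (hp : Pt q a v j) {x y : L} {D : ℕ} (hD : q + 1 ≤ D)
    (hx : v (x - j) ^ D = v (q : L)) (hy : ev Φ x y = 0) : v (y - j) ^ q ≤ v (x - j) := by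
  have hq1 : 1 ≤ q := h.prime.one_lt.le
  have hb0 : 0 ≤ v (x - j) := v.nonneg _
  have hb1 : v (x - j) < 1 := by
    by_contra hc
    push Not at hc
    have := one_le_pow₀ (n := D) hc
    rw [hx] at this
    exact absurd hp.lt (not_lt.2 this)
  have hbpos : 0 < v (x - j) := by
    rcases hb0.lt_or_eq with h1 | h1
    · exact h1
    · exfalso
      rw [← h1, zero_pow (by omega)] at hx
      exact hp.pos.ne hx
  have hqb : v (q : L) ≤ v (x - j) ^ (q + 1) := by
    rw [← hx]
    exact pow_le_pow_of_le_one hb0 hb1.le hD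
  have hqb' : v (q : L) < v (x - j) := by
    refine lt_of_le_of_lt hqb ?_
    rw [pow_succ]
    have h1 : v (x - j) ^ q < 1 := pow_lt_one₀ hb0 hb1 (by omega)
    calc v (x - j) ^ q * v (x - j) < 1 * v (x - j) := mul_lt_mul_of_pos_right h1 hbpos
      _ = v (x - j) := one_mul _
  have hc1 : v (y - j) < 1 := near h hp hb1 hy
  by_contra hcon
  push Not at hcon
  have hc0 : 0 ≤ v (y - j) := v.nonneg _
  have hcq : v (y - j) ^ q ≤ v (y - j) := by
    calc v (y - j) ^ q ≤ v (y - j) ^ 1 := pow_le_pow_of_le_one hc0 hc1.le hq1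
      _ = v (y - j) := pow_one _
  have hbc : v (x - j) < v (y - j) := lt_of_lt_of_le hcon hcq
  have hvj := v_j_le hp
  have hf1 := frob h.prime hp hvj hb1.le
  have hf2 := frob h.prime hp hvj hc1.le
  have hj := v_j h.prime hp
  have hna := hp.na
  -- second factor
  have e2 : v (x - y ^ q) = v (y - j) ^ q := by
    have e : x - y ^ q = -(y - j) ^ q + ((x - j) + (-(j ^ q - j) + -((j + (y - j)) ^ q - j ^ q - (y - j) ^ q))) := by
      have : j + (y - j) = y := by ring
      rw [this]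
      ring
    rw [e, v_add_eq hna, AbsoluteValue.map_neg, map_pow]
    rw [AbsoluteValue.map_neg, map_pow]
    refine lt_of_le_of_lt (hna _ _) (max_lt hcon ?_)
    refine lt_of_le_of_lt (hna _ _) (max_lt ?_ ?_)
    · rw [AbsoluteValue.map_neg]
      exact lt_of_le_of_lt hj (hqb'.trans hcon)
    · rw [AbsoluteValue.map_neg]
      exact lt_of_le_of_lt hf2 (hqb'.trans hcon)
  have e1 : v (x ^ q - y) = v (y - j) := by
    have e : x ^ q - y = -(y - j) + ((x - j) ^ q + ((j ^ q - j) + ((j + (x - j)) ^ q - j ^ q - (x - j) ^ q))) := by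
      have : j + (x - j) = x := by ring
      rw [this]
      ring
    have hbq : v (x - j) ^ q < v (y - j) := by
      refine lt_of_le_of_lt ?_ hbc
      calc v (x - j) ^ q ≤ v (x - j) ^ 1 := pow_le_pow_of_le_one hb0 hb1.le hq1
        _ = v (x - j) := pow_one _
    rw [e, v_add_eq hna, AbsoluteValue.map_neg]
    rw [AbsoluteValue.map_neg]
    refine lt_of_le_of_lt (hna _ _) (max_lt ?_ ?_)
    · rw [map_pow]
      exact hbq
    · refine lt_of_le_of_lt (hna _ _) (max_lt ?_ ?_)
      · exact lt_of_le_of_lt hj (hqb'.trans hbc)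
      · exact lt_of_le_of_lt hf1 (hqb'.trans hbc)
  have h3 := prod_eq h hp hb1 hy
  rw [e1, e2, ← pow_succ'] at h3
  rw [← h3] at hqb
  exact absurd (pow_lt_pow_left₀ hbc hb0 (by omega : q + 1 ≠ 0)) (not_lt.2 hqb)

end Pool.Agent.SSG
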