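import Pool.Agent.Work.MP_a5099b_nt.G.Lev0

/-!
# Module G.LevB (size M): the derivative at `j`

PROOF. `sp Φ x = (x^q - Y)(x - Y^q) + q * sp G x` (as polynomials in `Y`; from `h.kron`, `sp` is a ring homomorphism), so its
derivative at `j` is `-(x - j^q) - q j^(q-1) (x^q - j) + q * (derivative (sp G x)).eval j`. The last two terms have absolute value
`≤ v q` (`derivative (sp G x) = sp (derivative G) x`, `v_ev`). `x - j^q = (x - j) + (j - j^q)`, `v (j - j^q) ≤ v q < v (x - j)`
(`v (x - j)^D = v q < 1` and `D ≥ 2`). So the absolute value is `v (x - j)`.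
-/

set_option autoImplicit false

namespace Pool.Agent.SSG

open Polynomial

open scoped Polynomial.Bivariate

variable {L : Type*} [Field L] {q : ℕ} {Φ G : ℤ[X][Y]} {a : ℤ} {v : AbsoluteValue L ℝ} {j : L}

private theorem v_add_eq (hna : IsNonarchimedean v) {u w : L} (h : v w < v u) : v (u + w) = v u := by
  apply le_antisymm
  · exact (hna u w).trans (max_le le_rfl h.le)
  · have h1 : v u ≤ max (v (u + w)) (v (-w)) := by
      have := hna (u + w) (-w)
      rwa [add_neg_cancel_right] at this
    rw [AbsoluteValue.map_neg] at h1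
    rcases le_max_iff.1 h1 with h2 | h2
    · exact h2
    · exact absurd h2 (not_le.2 h)

theorem level_deriv (h : Loc q Φ G a) (hp : Pt q a v j) {x : L} {D : ℕ} (hD : 2 ≤ D)
    (hx : v (x - j) ^ D = v (q : L)) : v ((derivative (sp Φ x)).eval j) = v (x - j) := by
  have hna := hp.na
  have hb0 : 0 ≤ v (x - j) := v.nonneg _
  have hb1 : v (x - j) < 1 := by
    by_contra hc
    push Not at hc
    have := one_le_pow₀ (n := D) hc
    rw [hx] at this
    exact absurd hp.lt (not_lt.2 this)
  have hbpos : 0 < v (x - j) := by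
    rcases hb0.lt_or_eq with h1 | h1
    · exact h1
    · exfalso
      rw [← h1, zero_pow (by omega)] at hx
      exact hp.pos.ne hx
  have hqb : v (q : L) < v (x - j) := by
    have h1 : v (q : L) ≤ v (x - j) ^ 2 := by
      rw [← hx]
      exact pow_le_pow_of_le_one hb0 hb1.le hD
    refine lt_of_le_of_lt h1 ?_
    rw [pow_two]
    calc v (x - j) * v (x - j) < 1 * v (x - j) := mul_lt_mul_of_pos_right hb1 hbpos
      _ = v (x - j) := one_mul _
  have hvj := v_j_le hp
  have hvx : v x ≤ 1 := by
    have e : x = j + (x - j) := by ring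
    rw [e]
    exact (hna _ _).trans (max_le hvj hb1.le)
  have hsp : sp Φ x = (C (x ^ q) - X) * (C x - X ^ q) + C (q : L) * sp G x := by
    unfold sp
    conv_lhs => rw [h.kron]
    simp
  have hd : (derivative (sp Φ x)).eval j =
      -(x - j) + (((j ^ q - j) + -((q : L) * (j ^ (q - 1) * (x ^ q - j)))) +
        (q : L) * ev (derivative G) x j) := by
    have e1 : (derivative (sp G x)).eval j = ev (derivative G) x j := by
      unfold ev sp
      rw [derivative_map]
    rw [hsp, derivative_add, derivative_C_mul, derivative_mul, derivative_sub, derivative_sub,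
      derivative_C, derivative_C, derivative_X, derivative_X_pow]
    simp only [eval_add, eval_mul, eval_sub, eval_C, eval_X, eval_pow, eval_zero, eval_one, e1]
    ring
  have hqv : ∀ z : L, v z ≤ 1 → v ((q : L) * z) ≤ v (q : L) := by
    intro z hz
    rw [map_mul]
    exact mul_le_of_le_one_right (v.nonneg _) hz
  have hr : v (((j ^ q - j) + -((q : L) * (j ^ (q - 1) * (x ^ q - j)))) +
        (q : L) * ev (derivative G) x j) ≤ v (q : L) := by
    refine (hna _ _).trans (max_le ((hna _ _).trans (max_le (v_j h.prime hp) ?_)) ?_)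
    · rw [AbsoluteValue.map_neg]
      refine hqv _ ?_
      rw [map_mul, map_pow]
      refine mul_le_one₀ (pow_le_one₀ (v.nonneg _) hvj) (v.nonneg _) ?_
      rw [sub_eq_add_neg]
      refine (hna _ _).trans (max_le ?_ ?_)
      · rw [map_pow]
        exact pow_le_one₀ (v.nonneg _) hvx
      · rw [AbsoluteValue.map_neg]
        exact hvj
    · exact hqv _ (v_ev hp _ hvx hvj)
  rw [hd, v_add_eq hna, AbsoluteValue.map_neg]
  rw [AbsoluteValue.map_neg]
  exact lt_of_le_of_lt hr hqb

end Pool.Agent.SSG
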