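import Pool.Agent.Work.MP_a5099b_nt.G.LevA
import Pool.Agent.Work.MP_a5099b_nt.G.LevB

/-!
# Module G.LevC (size M): all neighbours but the parent are children

PROOF. `sp Φ x = ∏_{y ∈ nb Φ x} (Y - y)` (`sp_eq_prod`), so its derivative at `j` is the sum over the `z ∈ nb Φ x` of
`∏_{y ∈ (nb Φ x).erase z} (j - y)` (`Polynomial.derivative_prod` for multisets), `q` factors each (`card_nb`, `h.deg`). By `level_le` every
`v (y - j)^q ≤ v (x - j) =: b`. Suppose `y₀ ∈ (nb Φ x).erase x'` has `v (y₀ - j)^q < b`. Then `nb Φ x` contains `x'` and `y₀` (as a submultiset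
`{x', y₀}`), so each of the products contains at least one of these factors: its `q`-th power is `< b^q` (one
factor `< b`, the others `≤ b`; `0 < b`), so its absolute value is `< b`; the absolute value of the sum is `< b`
(`IsNonarchimedean.multiset_image_add` or induction). This contradicts `level_deriv`.
-/

set_option autoImplicit false

namespace Pool.Agent.SSG

open Polynomial

open scoped Polynomial.Bivariate

variable {L : Type*} [Field L] [IsAlgClosed L] {q : ℕ} {Φ G : ℤ[X][Y]} {a : ℤ}
  {v : AbsoluteValue L ℝ} {j : L}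

private theorem prod_le_pow {b : ℝ} (hb : 0 < b) (s : Multiset ℝ) (h0 : ∀ c ∈ s, 0 ≤ c)
    (h1 : ∀ c ∈ s, c ≤ b) : 0 ≤ s.prod ∧ s.prod ≤ b ^ Multiset.card s := by
  induction s using Multiset.induction_on with
  | empty => simp
  | cons c s ih =>
    obtain ⟨i0, i1⟩ := ih (fun d hd => h0 d (Multiset.mem_cons_of_mem hd))
      (fun d hd => h1 d (Multiset.mem_cons_of_mem hd))
    have c0 := h0 c (Multiset.mem_cons_self c s)
    have c1 := h1 c (Multiset.mem_cons_self c s)
    rw [Multiset.prod_cons, Multiset.card_cons, pow_succ']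
    exact ⟨mul_nonneg c0 i0, mul_le_mul c1 i1 i0 hb.le⟩

private theorem prod_lt_pow {b : ℝ} (hb : 0 < b) (s : Multiset ℝ) (h0 : ∀ c ∈ s, 0 ≤ c)
    (h1 : ∀ c ∈ s, c ≤ b) {c0 : ℝ} (hc0 : c0 ∈ s) (hlt : c0 < b) :
    s.prod < b ^ Multiset.card s := by
  obtain ⟨s', rfl⟩ := Multiset.exists_cons_of_mem hc0
  obtain ⟨i0, i1⟩ := prod_le_pow hb s' (fun d hd => h0 d (Multiset.mem_cons_of_mem hd))
      (fun d hd => h1 d (Multiset.mem_cons_of_mem hd))
  have c00 := h0 c0 hc0
  rw [Multiset.prod_cons, Multiset.card_cons, pow_succ']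
  calc c0 * s'.prod ≤ c0 * b ^ Multiset.card s' := mul_le_mul_of_nonneg_left i1 c00
    _ < b * b ^ Multiset.card s' := mul_lt_mul_of_pos_right hlt (pow_pos hb _)

omit [IsAlgClosed L] in
private theorem sum_lt (hna : IsNonarchimedean v) {b : ℝ} (hb : 0 < b) (s : Multiset L)
    (h : ∀ c ∈ s, v c < b) : v s.sum < b := by
  induction s using Multiset.induction_on with
  | empty => simpa using hb
  | cons c s ih =>
    rw [Multiset.sum_cons]
    exact lt_of_le_of_lt (hna c s.sum) (max_lt (h c (Multiset.mem_cons_self c s))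
      (ih fun d hd => h d (Multiset.mem_cons_of_mem hd)))

open Classical in
theorem level_step (h : Loc q Φ G a) (hp : Pt q a v j) {x x' : L} {D : ℕ} (hD : q + 1 ≤ D)
    (hx : v (x - j) ^ D = v (q : L)) (hx' : x' ∈ nb Φ x) (hlt : v (x' - j) ^ q < v (x - j))
    {y : L} (hy : y ∈ (nb Φ x).erase x') : v (y - j) ^ q = v (x - j) := by
  have hq2 : 2 ≤ q := h.prime.two_le
  have hq0 : q ≠ 0 := by omega
  have hle : ∀ z ∈ nb Φ x, v (z - j) ^ q ≤ v (x - j) := fun z hz =>
    level_le h hp hD hx ((mem_nb h.monic).1 hz)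
  have hymem : y ∈ nb Φ x := Multiset.mem_of_mem_erase hy
  by_contra hne
  have hylt : v (y - j) ^ q < v (x - j) := lt_of_le_of_ne (hle y hymem) hne
  have hb : 0 < v (x - j) := by
    rcases (AbsoluteValue.nonneg v (x - j)).lt_or_eq with h1 | h1
    · exact h1
    · exfalso
      rw [← h1, zero_pow (by omega)] at hx
      exact (hp.pos.ne hx).elim
  have hcard : Multiset.card (nb Φ x) = q + 1 := by rw [card_nb h.monic, h.deg]
  -- the derivative
  have hder : (derivative (sp Φ x)).eval j =
      ((nb Φ x).map fun i => (((nb Φ x).erase i).map fun z => j - z).prod).sum := by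
    rw [sp_eq_prod h.monic, derivative_prod, eval_multisetSum, Multiset.map_map]
    congr 1
    refine Multiset.map_congr rfl fun i _ => ?_
    rw [Function.comp_apply, eval_mul, derivative_sub, derivative_X, derivative_C, sub_zero, eval_one,
      mul_one, eval_multiset_prod, Multiset.map_map]
    congr 1
    refine Multiset.map_congr rfl fun z _ => ?_
    simp
  have hterm : ∀ c ∈ (nb Φ x).map fun i => (((nb Φ x).erase i).map fun z => j - z).prod,
      v c < v (x - j) := by
    intro c hc
    obtain ⟨i, hi, rfl⟩ := Multiset.mem_map.1 hc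
    -- the special factor
    obtain ⟨w, hw, hwlt⟩ : ∃ w ∈ (nb Φ x).erase i, v (w - j) ^ q < v (x - j) := by
      by_cases hix : i = x'
      · subst hix
        exact ⟨y, hy, hylt⟩
      · exact ⟨x', (Multiset.mem_erase_of_ne (fun e => hix e.symm)).2 hx', hlt⟩
    have hprod := prod_lt_pow hb (((nb Φ x).erase i).map fun z => v (z - j) ^ q)
      (by
        intro c hc
        obtain ⟨z, -, rfl⟩ := Multiset.mem_map.1 hc
        exact pow_nonneg (AbsoluteValue.nonneg v _) _)
      (by
        intro c hc
        obtain ⟨z, hz, rfl⟩ := Multiset.mem_map.1 hc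
        exact hle z (Multiset.mem_of_mem_erase hz))
      (Multiset.mem_map.2 ⟨w, hw, rfl⟩) hwlt
    rw [Multiset.card_map, Multiset.card_erase_of_mem hi, hcard, Nat.pred_succ,
      Multiset.prod_map_pow] at hprod
    have hv : v (((nb Φ x).erase i).map fun z => j - z).prod =
        (((nb Φ x).erase i).map fun z => v (z - j)).prod := by
      rw [map_multiset_prod, Multiset.map_map]
      congr 1
      refine Multiset.map_congr rfl fun z _ => ?_
      rw [Function.comp_apply, AbsoluteValue.map_sub]
    rw [hv]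
    exact lt_of_pow_lt_pow_left₀ q hb.le hprod
  have h1 := sum_lt hp.na hb _ hterm
  rw [← hder, level_deriv h hp (by omega : 2 ≤ D) hx] at h1
  exact lt_irrefl _ h1

end Pool.Agent.SSG
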