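import Pool.Agent.Work.MP_a5099b_nt.G.Defs

/-!
# Module G.Tree (size M): products over the levels of the tree

`n x` = multiset of the neighbours of `x`, `q + 1` of them, symmetric.

PROOFS. `mem_S`: by construction (members of `(n p.2).erase p.1` are members of `n p.2`); so `p.1 ∈ n p.2` by symmetry.
`card_S`: `card ((n p.2).erase p.1) = q`. `NN_zero`: definitions.
`NN_one`, `NN_two`: for `p ∈ S n j m`: `Tf n F p.2 = F p.1 * ∏_{y ∈ (n p.2).erase p.1} F y` (`Multiset.cons_erase`), the product of the
second factors over `S n j m` is the product of `F` over `S n j (m + 1)` (`Multiset.prod_bind`, `Multiset.map_bind`); the product of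
the `F p.1` over `S n j 0` is `(F j)^(q+1)` and over `S n j (m + 1)` it is `∏_{p' ∈ S n j m} (F p'.2)^q`.
-/

set_option autoImplicit false

namespace Pool.Agent.SSG

variable {V : Type*} {n : V → Multiset V} {j : V} {q : ℕ}

theorem mem_S {m : ℕ} {p : V × V} (hp : p ∈ S n j m) : p.2 ∈ n p.1 := by
  classical
  cases m with
  | zero =>
    simp only [S, Multiset.mem_map] at hp
    obtain ⟨y, hy, rfl⟩ := hp
    exact hy
  | succ m =>
    simp only [S, Multiset.mem_bind, Multiset.mem_map] at hp
    obtain ⟨p', _, y, hy, rfl⟩ := hp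
    exact Multiset.mem_of_mem_erase hy

theorem card_S (hc : ∀ x, Multiset.card (n x) = q + 1) (hs : ∀ x y, y ∈ n x → x ∈ n y) (m : ℕ) :
    Multiset.card (S n j m) = DD q m := by
  classical
  induction m with
  | zero => simp [S, hc, DD]
  | succ m ih =>
    have h1 : ∀ p ∈ S n j m, Multiset.card (((n p.2).erase p.1).map fun y => (p.2, y)) = q := by
      intro p hp
      rw [Multiset.card_map, Multiset.card_erase_of_mem (hs _ _ (mem_S hp)), hc]
      rfl
    simp only [S, Multiset.card_bind]
    have h2 : (S n j m).map (Multiset.card ∘ fun p => ((n p.2).erase p.1).map fun y => (p.2, y)) =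
        (S n j m).map (fun _ => q) := Multiset.map_congr rfl fun p hp => h1 p hp
    rw [h2, Multiset.map_const', Multiset.sum_replicate, ih, DD, DD, smul_eq_mul, pow_succ]
    ring

theorem NN_zero (F : V → ℝ) : NN n j (Tf n F) 0 = NN n j F 1 := by
  simp [NN, S, Tf, Multiset.map_map]

private theorem NN_succ (hs : ∀ x y, y ∈ n x → x ∈ n y) (F : V → ℝ) (m : ℕ) :
    NN n j (Tf n F) (m + 1) = NN n j F (m + 2) * ((S n j m).map fun p => F p.1).prod := by
  classical
  have h1 : NN n j F (m + 2) =
      ((S n j m).map fun p => (((n p.2).erase p.1).map F).prod).prod := by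
    simp only [NN, S, Multiset.map_bind, Multiset.prod_bind, Multiset.map_map, Function.comp_def]
  have h2 : NN n j (Tf n F) (m + 1) = ((S n j m).map fun p =>
      (((n p.2).erase p.1).map F).prod * F p.1).prod := by
    simp only [NN]
    congr 1
    refine Multiset.map_congr rfl fun p hp => ?_
    have h3 := Multiset.cons_erase (hs _ _ (mem_S hp))
    unfold Tf
    conv_lhs => rw [← h3]
    rw [Multiset.map_cons, Multiset.prod_cons, mul_comm]
  rw [h1, h2, Multiset.prod_map_mul]

theorem NN_one (hc : ∀ x, Multiset.card (n x) = q + 1) (hs : ∀ x y, y ∈ n x → x ∈ n y)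
    (F : V → ℝ) : NN n j (Tf n F) 1 = NN n j F 2 * NN n j F 0 ^ (q + 1) := by
  rw [NN_succ hs]
  congr 1
  simp only [S, NN, Multiset.map_map, Function.comp_def]
  rw [Multiset.map_const', Multiset.prod_replicate, hc]

theorem NN_two (hc : ∀ x, Multiset.card (n x) = q + 1) (hs : ∀ x y, y ∈ n x → x ∈ n y)
    (F : V → ℝ) (m : ℕ) :
    NN n j (Tf n F) (m + 2) = NN n j F (m + 3) * NN n j F (m + 1) ^ q := by
  classical
  rw [NN_succ hs]
  congr 1
  simp only [NN, S, Multiset.map_bind, Multiset.prod_bind, Multiset.map_map, Function.comp_def]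
  rw [← Multiset.prod_map_pow]
  congr 1
  refine Multiset.map_congr rfl fun p hp => ?_
  rw [Multiset.map_const', Multiset.prod_replicate,
    Multiset.card_erase_of_mem (hs _ _ (mem_S hp)), hc]
  rfl

end Pool.Agent.SSG
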