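import Pool.Agent.Work.MP_a5099b_nt.G.LevC
import Pool.Agent.Work.MP_a5099b_nt.G.Lev1
import Pool.Agent.Work.MP_a5099b_nt.G.Tree

/-!
# Module G.LevS (size S-M): the absolute values at all levels

PROOF. Induction on `m`. `m = 0`: `p = (j, y)`, `y ∈ nb Φ j`: `level_one`; `v (j - j)^q = 0 < v (y - j)` (`v (y - j)^(q+1) = v q > 0`). Step: `p = (x, y)`,
`(x', x) ∈ S m`, `y ∈ (nb Φ x).erase x'`; `x' ∈ nb Φ x` by symmetry (`mem_S`, `nb_symm`), `DD q m ≥ q + 1`; `level_step`: `v (y - j)^q = v (x - j)`, so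
`v (y - j)^(DD q (m+1)) = (v (y - j)^q)^(DD q m) = v q`; and `v (x - j)^q < v (y - j)`: with `c = v (y - j)`, `0 < c < 1`,
`v (x - j)^q = c^(q*q) < c`.
-/

set_option autoImplicit false

namespace Pool.Agent.SSG

open Polynomial

open scoped Polynomial.Bivariate

variable {L : Type*} [Field L] [IsAlgClosed L] {q : ℕ} {Φ G : ℤ[X][Y]} {a : ℤ}
  {v : AbsoluteValue L ℝ} {j : L}

private theorem lt_of_pow_eq (hp : Pt q a v j) {c : ℝ} (hc : 0 ≤ c) {D : ℕ} (hD : D ≠ 0)
    (h : c ^ D = v (q : L)) : 0 < c ∧ c < 1 := by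
  constructor
  · rcases hc.lt_or_eq with h1 | h1
    · exact h1
    · exfalso
      rw [← h1, zero_pow hD] at h
      exact hp.pos.ne h
  · by_contra hcon
    push Not at hcon
    have := one_le_pow₀ hcon (n := D)
    rw [h] at this
    exact absurd hp.lt (not_lt.2 this)

theorem level_S (h : Loc q Φ G a) (hp : Pt q a v j) {m : ℕ} {p : L × L} (hm : p ∈ S (nb Φ) j m) :
    v (p.2 - j) ^ DD q m = v (q : L) ∧ v (p.1 - j) ^ q < v (p.2 - j) := by
  classical
  have hq1 : 1 < q := h.prime.one_lt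
  induction m generalizing p with
  | zero =>
    obtain ⟨y, hy, rfl⟩ := Multiset.mem_map.1 hm
    have h1 := level_one h hp ((mem_nb h.monic).1 hy)
    have h2 : DD q 0 = q + 1 := by simp [DD]
    refine ⟨by rw [h2]; exact h1, ?_⟩
    show v (j - j) ^ q < v (y - j)
    rw [sub_self, map_zero, zero_pow (by omega)]
    exact (lt_of_pow_eq hp (v.nonneg _) (by omega) h1).1
  | succ m ih =>
    obtain ⟨p', hp', hmem⟩ := Multiset.mem_bind.1 hm
    obtain ⟨y, hy, rfl⟩ := Multiset.mem_map.1 hmem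
    obtain ⟨h1, h2⟩ := ih hp'
    have hD : q + 1 ≤ DD q m := by
      unfold DD
      exact Nat.le_mul_of_pos_left _ (pow_pos (by omega) m)
    have h3 : p'.1 ∈ nb Φ p'.2 := nb_symm h.monic h.symm (mem_S hp')
    have h4 : v (y - j) ^ q = v (p'.2 - j) := level_step h hp hD h1 h3 h2 hy
    have h5 : DD q (m + 1) = q * DD q m := by
      unfold DD
      ring
    have h6 : v (y - j) ^ DD q (m + 1) = v (q : L) := by
      rw [h5, pow_mul, h4, h1]
    refine ⟨h6, ?_⟩
    show v (p'.2 - j) ^ q < v (y - j)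
    have hD' : DD q (m + 1) ≠ 0 := by
      rw [h5]
      have : 0 < q * DD q m := Nat.mul_pos (by omega) (by omega)
      omega
    obtain ⟨h7, h8⟩ := lt_of_pow_eq hp (v.nonneg (y - j)) hD' h6
    rw [← h4, ← pow_mul]
    calc v (y - j) ^ (q * q) < v (y - j) ^ 1 :=
          pow_lt_pow_right_of_lt_one₀ h7 h8 (by nlinarith)
      _ = v (y - j) := pow_one _

end Pool.Agent.SSG
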