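import Pool.Agent.Work.MP_a5099b_nt.G.Lev0

/-!
# Module G.LevU (size M): neighbours of points near `j` are near `j`

PROOF. Let `v (x - j) < 1`, `Φ(x, y) = 0`. `v x ≤ 1`, `v y ≤ 1` (`v_root`). `(x^q - y)(x - y^q) = - q G(x, y)` has absolute value `≤ v q < 1`, so
`v (x^q - y) < 1` or `v (x - y^q) < 1`. In the first case `y ≡ x^q ≡ j^q ≡ j` (all modulo the maximal ideal, `v (·) < 1`;
`x^q - j^q` is a multiple of `x - j`). In the second case `y^q ≡ x ≡ j ≡ j^q`, and `(y - j)^q ≡ y^q - j^q` modulo `q` (`frob` with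
`x := j`, `b := y - j`), so `v (y - j)^q < 1`, `v (y - j) < 1`.
`unit_G`: `G(x, y) ≡ G(a, a)` modulo the maximal ideal (`v_ev_sub` with `c = max (v (x - a)) (v (y - a)) < 1`), and `v (G(a, a)) = 1`
(`ev_int`, `v_unit`). `prod_eq`: then `v (x^q - y) * v (x - y^q) = v q`.
-/

set_option autoImplicit false

namespace Pool.Agent.SSG

open Polynomial

open scoped Polynomial.Bivariate

variable {L : Type*} [Field L] {q : ℕ} {Φ G : ℤ[X][Y]} {a : ℤ} {v : AbsoluteValue L ℝ} {j : L}

private theorem u_add (hp : Pt q a v j) {x y : L} (hx : v x < 1) (hy : v y < 1) :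
    v (x + y) < 1 := lt_of_le_of_lt (hp.na x y) (max_lt hx hy)

private theorem u_neg {x : L} (hx : v x < 1) : v (-x) < 1 := by rwa [v.map_neg]

private theorem u_sub (hp : Pt q a v j) {x y : L} (hx : v x < 1) (hy : v y < 1) :
    v (x - y) < 1 := by
  rw [sub_eq_add_neg]
  exact u_add hp hx (u_neg hy)

private theorem u_le (hp : Pt q a v j) {x : L} (hx : v (x - j) < 1) : v x ≤ 1 := by
  have e : x = (x - j) + j := by ring
  rw [e]
  exact (hp.na _ _).trans (max_le hx.le (v_j_le hp))

private theorem u_pow (hp : Pt q a v j) {x x' : L} (hx : v x ≤ 1) (hx' : v x' ≤ 1)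
    (h1 : v (x - x') < 1) (n : ℕ) : v (x ^ n - x' ^ n) < 1 := by
  have h := v_aeval_sub hp (X ^ n : ℤ[X]) hx hx' (c := v (x - x')) le_rfl
  simp only [map_pow, aeval_X] at h
  exact lt_of_le_of_lt h h1

private theorem prod_kron (h : Loc q Φ G a) {x y : L} (hy : ev Φ x y = 0) :
    v (x ^ q - y) * v (x - y ^ q) = v (q : L) * v (ev G x y) := by
  rw [ev_kron h] at hy
  have h1 : (x ^ q - y) * (x - y ^ q) = -((q : L) * ev G x y) := eq_neg_of_add_eq_zero_left hy
  rw [← v.map_mul, h1, v.map_neg, v.map_mul]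

theorem near (h : Loc q Φ G a) (hp : Pt q a v j) {x y : L} (hx : v (x - j) < 1)
    (hy : ev Φ x y = 0) : v (y - j) < 1 := by
  have hx1 := u_le hp hx
  have hy1 := v_root h hp hx1 hy
  have hj := v_j_le hp
  have hjq : v (j ^ q - j) < 1 := lt_of_le_of_lt (v_j h.prime hp) hp.lt
  have h1 := prod_kron (v := v) h hy
  have h2 : v (x ^ q - y) * v (x - y ^ q) < 1 := by
    rw [h1]
    calc v (q : L) * v (ev G x y) ≤ v (q : L) * 1 :=
          mul_le_mul_of_nonneg_left (v_ev hp G hx1 hy1) (v.nonneg _)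
      _ < 1 := by rw [mul_one]; exact hp.lt
  rcases lt_or_ge (v (x ^ q - y)) 1 with h3 | h3
  · have e : y - j = -(x ^ q - y) + (x ^ q - j ^ q) + (j ^ q - j) := by ring
    rw [e]
    exact u_add hp (u_add hp (u_neg h3) (u_pow hp hx1 hj hx q)) hjq
  · have h4 : v (x - y ^ q) < 1 := by
      by_contra h5
      push Not at h5
      exact absurd h2 (not_lt.2 (one_le_mul_of_one_le_of_one_le h3 h5))
    have hb : v (y - j) ≤ 1 := by
      rw [sub_eq_add_neg]
      exact (hp.na _ _).trans (max_le hy1 (by rwa [v.map_neg]))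
    have h5 := lt_of_le_of_lt (frob h.prime hp hj hb) hp.lt
    have e : (y - j) ^ q = (-(x - y ^ q) + (x - j)) + -(j ^ q - j) -
        ((j + (y - j)) ^ q - j ^ q - (y - j) ^ q) := by
      have : j + (y - j) = y := by ring
      rw [this]; ring
    have h6 : v ((y - j) ^ q) < 1 := by
      rw [e]
      exact u_sub hp (u_add hp (u_add hp (u_neg h4) hx) (u_neg hjq)) h5
    rw [v.map_pow] at h6
    by_contra h7
    push Not at h7
    exact absurd h6 (not_lt.2 (one_le_pow₀ h7))

theorem unit_G (h : Loc q Φ G a) (hp : Pt q a v j) {x y : L} (hx : v (x - j) < 1)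
    (hy : v (y - j) < 1) : v (ev G x y) = 1 := by
  have hja : v (j - a) < 1 := lt_of_le_of_lt hp.close hp.lt
  have hxa : v (x - a) < 1 := by
    have e : x - a = (x - j) + (j - a) := by ring
    rw [e]; exact u_add hp hx hja
  have hya : v (y - a) < 1 := by
    have e : y - a = (y - j) + (j - a) := by ring
    rw [e]; exact u_add hp hy hja
  have h1 := v_ev_sub hp G (u_le hp hx) (u_le hp hy) (v_int hp a) (v_int hp a)
    (c := max (v (x - a)) (v (y - a))) (le_max_left _ _) (le_max_right _ _)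
  have h2 := lt_of_le_of_lt h1 (max_lt hxa hya)
  have h3 : v (ev G (a : L) (a : L)) = 1 := by
    rw [ev_int]
    exact v_unit h.prime hp h.unit
  apply le_antisymm (v_ev hp G (u_le hp hx) (u_le hp hy))
  by_contra h4
  push Not at h4
  have h5 := u_sub hp h4 h2
  rw [sub_sub_cancel, h3] at h5
  exact absurd h5 (lt_irrefl _)

theorem prod_eq (h : Loc q Φ G a) (hp : Pt q a v j) {x y : L} (hx : v (x - j) < 1)
    (hy : ev Φ x y = 0) : v (x ^ q - y) * v (x - y ^ q) = v (q : L) := by
  rw [prod_kron h hy, unit_G h hp hx (near h hp hx hy), mul_one]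

end Pool.Agent.SSG
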