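import Pool.Agent.Work.MP_a5099b_nt.G.Fin
import Pool.Agent.Work.MP_a5099b_nt.G.LevS
import Pool.Agent.Work.MP_a5099b_nt.G.HVal

/-!
# Module G.Main (size M): the parity of the valuation of `E_m(j)`

PROOF. `v_EE`: two step induction with `hT` (`map_multiset_prod`, `Multiset.map_map`). `NN_H`: for `p ∈ S (nb Φ) j m` by `level_S` and `v_H`
(`D = DD q m ≥ q + 1 ≥ 2`): `v (H(p.2)) = v (p.2 - j)^M`, so `(v (H(p.2)))^(DD q m) = (v q)^M`; the product over `S` raised to the power
`DD q m` is `((v q)^M)^(card S) = ((v q)^M)^(DD q m)` (`card_S`); both are nonnegative, so they are equal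
(`pow_left_injective`-type lemma). `main`: `final_parity` with `m + 1`, `ρ = v q`.
-/

set_option autoImplicit false

namespace Pool.Agent.SSG

open Polynomial

open scoped Polynomial.Bivariate

variable {L : Type*} [Field L] [IsAlgClosed L] {q : ℕ} {Φ G : ℤ[X][Y]} {a : ℤ}
  {v : AbsoluteValue L ℝ} {j : L}

private theorem v_prod (s : Multiset L) (v : AbsoluteValue L ℝ) (f : L → L) :
    v ((s.map f).prod) = (s.map fun y => v (f y)).prod := by
  induction s using Multiset.induction_on with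
  | empty => simp
  | cons a s ih =>
    rw [Multiset.map_cons, Multiset.prod_cons, Multiset.map_cons, Multiset.prod_cons, map_mul, ih]

theorem v_EE {T : ℤ[X] →* ℤ[X]}
    (hT : ∀ (F : ℤ[X]) (x : L), aeval x (T F) = ((nb Φ x).map fun y => aeval y F).prod)
    (H : ℤ[X]) (m : ℕ) (x : L) :
    v (aeval x (EE T H m)) = ef (nb Φ) (fun x => v (aeval x H)) m x := by
  induction m using Nat.twoStepInduction generalizing x with
  | zero => simp [EE, ef]
  | one =>
    rw [EE, ef, Tf, hT, v_prod]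
  | more m ih1 ih2 =>
    show v (aeval x (T (EE T H (m + 1)) * EE T H m)) =
      Tf (nb Φ) (ef (nb Φ) (fun x => v (aeval x H)) (m + 1)) x *
        ef (nb Φ) (fun x => v (aeval x H)) m x
    rw [map_mul, map_mul, hT, v_prod, ih1, Tf]
    congr 2
    exact Multiset.map_congr rfl fun y _ => ih2 y

omit [Field L] [IsAlgClosed L] in
private theorem prod_pow (s : Multiset (L × L)) (f : L × L → ℝ) (k : ℕ) :
    (s.map f).prod ^ k = (s.map fun p => f p ^ k).prod := by
  induction s using Multiset.induction_on with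
  | empty => simp
  | cons a s ih =>
    rw [Multiset.map_cons, Multiset.prod_cons, Multiset.map_cons, Multiset.prod_cons, mul_pow, ih]

theorem NN_H (h : Loc q Φ G a) (hp : Pt q a v j) {H : ℤ[X]} (hH : H.Monic) {M : ℕ}
    (hM : (H.map (Int.castRingHom (ZMod q))).rootMultiplicity (a : ZMod q) = M) {m : ℕ}
    (hm : M < DD q m) : NN (nb Φ) j (fun x => v (aeval x H)) (m + 1) = v (q : L) ^ M := by
  have hq2 := h.prime.two_le
  have hD : 2 ≤ DD q m := by
    unfold DD
    have h1 : 1 ≤ q ^ m := Nat.one_le_pow _ _ h.prime.pos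
    calc 2 ≤ 1 * (q + 1) := by omega
      _ ≤ q ^ m * (q + 1) := Nat.mul_le_mul_right _ h1
  have hc : ∀ x : L, Multiset.card (nb Φ x) = q + 1 := fun x => by rw [card_nb h.monic, h.deg]
  have hs : ∀ x y : L, y ∈ nb Φ x → x ∈ nb Φ y := fun x y => nb_symm h.monic h.symm
  have h1 : ((S (nb Φ) j m).map fun p => v (aeval p.2 H)).prod ^ DD q m =
      (v (q : L) ^ M) ^ DD q m := by
    rw [prod_pow]
    have h2 : (S (nb Φ) j m).map (fun p => v (aeval p.2 H) ^ DD q m) =
        (S (nb Φ) j m).map (fun _ => v (q : L) ^ M) := by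
      refine Multiset.map_congr rfl fun p hpm => ?_
      have h3 := (level_S h hp hpm).1
      rw [v_H h.prime hp hH hM hm hD h3, ← pow_mul, mul_comm, pow_mul, h3]
    rw [h2, Multiset.map_const', Multiset.prod_replicate, card_S hc hs m]
  rw [NN]
  refine (pow_left_inj₀ ?_ (pow_nonneg hp.pos.le M) (by omega)).1 h1
  refine Multiset.prod_nonneg fun y hy => ?_
  obtain ⟨p, -, rfl⟩ := Multiset.mem_map.1 hy
  exact v.nonneg _

/-- The exponent of `v q` in `v (E_(m+1)(j))` is congruent modulo 2 to the multiplicity `M` of `a` as a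
root of `H` modulo `q`, if `m` is large enough and all the values at `j` are integral powers of `v q`. -/
theorem main (h : Loc q Φ G a) (hp : Pt q a v j) {T : ℤ[X] →* ℤ[X]}
    (hT : ∀ (F : ℤ[X]) (x : L), aeval x (T F) = ((nb Φ x).map fun y => aeval y F).prod)
    {H : ℤ[X]} (hH : H.Monic) {M : ℕ}
    (hM : (H.map (Int.castRingHom (ZMod q))).rootMultiplicity (a : ZMod q) = M) {m : ℕ}
    (hm : M < DD q m) (h0 : ∃ z : ℤ, v (aeval j H) = v (q : L) ^ z)
    (hi : ∀ i, i ≤ m → ∃ z : ℤ, v (aeval j (EE T H i)) = v (q : L) ^ z) :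
    ∃ z : ℤ, v (aeval j (EE T H (m + 1))) = v (q : L) ^ z ∧ z ≡ M [ZMOD 2] := by
  have hc : ∀ x : L, Multiset.card (nb Φ x) = q + 1 := fun x => by rw [card_nb h.monic, h.deg]
  have hs : ∀ x y : L, y ∈ nb Φ x → x ∈ nb Φ y := fun x y => nb_symm h.monic h.symm
  have hodd : Odd q := h.prime.odd_of_ne_two h.two
  have h1 := final_parity (n := nb Φ) (j := j) hodd hc hs hp.pos (F := fun x => v (aeval x H)) h0
    (m := m + 1) (by omega)
    (fun i hi' => by
      obtain ⟨z, hz⟩ := hi i (by omega)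
      exact ⟨z, by rw [← v_EE hT, hz]⟩)
    (NN_H h hp hH hM hm)
  obtain ⟨z, hz, hz'⟩ := h1
  exact ⟨z, by rw [v_EE hT, hz], hz'⟩

end Pool.Agent.SSG
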