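import Pool.Agent.Work.MP_a5099b_nt.G.Tree

/-!
# Module G.ParC (size M): `E_m` and the levels

PROOF. (1) `Tf n (fun x => F x * G x) = Tf n F * Tf n G` (`Multiset.prod_map_mul`), `Tf n 1 = 1`. (2) `ef n (Tf n F) m = Tf n (ef n F m)` for
all `m` (two step induction with (1)). (3) Coefficients: `c 0 i = 0`, `c 1 i = if i = 1 then 1 else 0`,
`c (m+2) i = a (m+1) i + c m i`, where `a k i` are the coefficients of `∏ i, (NN (Tf F) i)^(c k i)` expressed by the
`NN F i`: `a k 0 = (q + 1) * c k 1`, `a k 1 = c k 0 + q * c k 2`, `a k (i + 2) = c k (i + 1) + q * c k (i + 3)`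
(by `NN_zero`, `NN_one`, `NN_two`). `c k i = 0` for `i > k`. Induction on `m`, for all `F` at the same time:
`ef F (m+2) j = Tf (ef F (m+1)) j * ef F m j = ef (Tf F) (m+1) j * ef F m j`, use the induction hypothesis for `Tf F` and `F`
and rewrite. Parity: `c m m = 1` for `m ≥ 1`, `c m i` even for `i ≠ m`: in `c (m+2) m = c (m+1) (m-1) + q * c (m+1) (m+1) + c m m` (for `m ≥ 1`) the
first term is even and `q * 1 + 1` is even; for `m = 0`: `c 2 0 = (q + 1) * c 1 1 + c 0 0 = q + 1`, even.
-/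

set_option autoImplicit false

namespace Pool.Agent.SSG

variable {V : Type*} {n : V → Multiset V} {j : V} {q : ℕ}

private def aT (q : ℕ) (d : ℕ → ℕ) : ℕ → ℕ
  | 0 => (q + 1) * d 1
  | (i + 1) => d i + q * d (i + 2)

private def cc (q : ℕ) : ℕ → ℕ → ℕ
  | 0 => fun _ => 0
  | 1 => fun i => if i = 1 then 1 else 0
  | (m + 2) => fun i => aT q (cc q (m + 1)) i + cc q m i

private theorem cc_zero (m : ℕ) : ∀ i, m < i → cc q m i = 0 := by
  induction m using Nat.twoStepInduction with
  | zero => intro i _; rfl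
  | one =>
    intro i hi
    simp only [cc]
    rw [if_neg (by omega)]
  | more m ih0 ih1 =>
    intro i hi
    obtain ⟨i, rfl⟩ : ∃ k, i = k + 1 := ⟨i - 1, by omega⟩
    simp only [cc, aT]
    rw [ih1 i (by omega), ih1 (i + 2) (by omega), ih0 (i + 1) (by omega)]
    simp

private theorem cc_par (hq : Odd q) (m : ℕ) :
    (1 ≤ m → cc q m m = 1) ∧ ∀ i, i ≠ m → Even (cc q m i) := by
  have hq1 : Even (q + 1) := hq.add_odd odd_one
  induction m using Nat.twoStepInduction with
  | zero => exact ⟨fun h => by omega, fun i _ => ⟨0, rfl⟩⟩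
  | one =>
    refine ⟨fun _ => rfl, fun i hi => ?_⟩
    simp only [cc]
    rw [if_neg hi]
    exact ⟨0, rfl⟩
  | more m ih0 ih1 =>
    refine ⟨fun _ => ?_, fun i hi => ?_⟩
    · simp only [cc, aT]
      rw [ih1.1 (by omega), cc_zero (m + 1) (m + 1 + 2) (by omega),
        cc_zero m (m + 2) (by omega)]
      simp
    · cases i with
      | zero =>
        simp only [cc, aT]
        refine (hq1.mul_right _).add ?_
        rcases Nat.eq_zero_or_pos m with rfl | hm
        · exact ⟨0, rfl⟩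
        · exact ih0.2 0 (by omega)
      | succ i =>
        simp only [cc, aT]
        have h1 : Even (cc q (m + 1) i) := ih1.2 i (by omega)
        by_cases hi2 : i + 1 = m
        · have h2 : cc q (m + 1) (i + 2) = 1 := by
            have h4 := ih1.1 (by omega)
            subst hi2
            exact h4
          have h3 : cc q m (i + 1) = 1 := by
            rw [hi2]
            exact ih0.1 (by omega)
          rw [h2, h3, mul_one, add_assoc]
          exact h1.add hq1
        · exact (h1.add ((ih1.2 (i + 2) (by omega)).mul_left q)).add (ih0.2 (i + 1) hi2)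

private theorem Tf_mul (F G : V → ℝ) : Tf n (fun x => F x * G x) = fun x => Tf n F x * Tf n G x := by
  funext x
  exact Multiset.prod_map_mul

private theorem ef_Tf (F : V → ℝ) (m : ℕ) : ef n (Tf n F) m = Tf n (ef n F m) := by
  induction m using Nat.twoStepInduction with
  | zero =>
    funext x
    simp [ef, Tf]
  | one => rfl
  | more m ih0 ih1 =>
    funext x
    simp only [ef]
    rw [ih0, ih1, Tf_mul]

private theorem prod_Tf (hc : ∀ x, Multiset.card (n x) = q + 1)
    (hs : ∀ x y, y ∈ n x → x ∈ n y) (F : V → ℝ) (d : ℕ → ℕ) (K : ℕ)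
    (hd : ∀ i, K + 2 ≤ i → d i = 0) :
    ∏ i ∈ Finset.range (K + 2), NN n j (Tf n F) i ^ d i =
      ∏ i ∈ Finset.range (K + 3), NN n j F i ^ aT q d i := by
  have h1 : ∏ i ∈ Finset.range (K + 2), NN n j (Tf n F) i ^ d i =
      (∏ i ∈ Finset.range K, (NN n j F (i + 3) * NN n j F (i + 1) ^ q) ^ d (i + 2)) *
        (NN n j F 2 * NN n j F 0 ^ (q + 1)) ^ d 1 * NN n j F 1 ^ d 0 := by
    rw [Finset.prod_range_succ', Finset.prod_range_succ', NN_zero, NN_one hc hs]
    congr 2
    exact Finset.prod_congr rfl fun i _ => by rw [NN_two hc hs]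
  have h2 : ∏ i ∈ Finset.range (K + 2), NN n j F (i + 1) ^ d i =
      (∏ i ∈ Finset.range K, NN n j F (i + 3) ^ d (i + 2)) * NN n j F 2 ^ d 1 *
        NN n j F 1 ^ d 0 := by
    rw [Finset.prod_range_succ', Finset.prod_range_succ']
  have h3 : ∏ i ∈ Finset.range (K + 2), NN n j F (i + 1) ^ (q * d (i + 2)) =
      ∏ i ∈ Finset.range K, NN n j F (i + 1) ^ (q * d (i + 2)) := by
    rw [Finset.prod_range_succ, Finset.prod_range_succ, hd (K + 2) (by omega),
      hd (K + 1 + 2) (by omega)]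
    simp
  have h4 : ∏ i ∈ Finset.range (K + 3), NN n j F i ^ aT q d i =
      (∏ i ∈ Finset.range (K + 2), NN n j F (i + 1) ^ d i) *
        (∏ i ∈ Finset.range (K + 2), NN n j F (i + 1) ^ (q * d (i + 2))) *
        NN n j F 0 ^ ((q + 1) * d 1) := by
    rw [Finset.prod_range_succ', ← Finset.prod_mul_distrib]
    congr 1
    exact Finset.prod_congr rfl fun i _ => by rw [← pow_add]; rfl
  rw [h1, h4, h2, h3]
  have h5 : ∏ i ∈ Finset.range K, (NN n j F (i + 3) * NN n j F (i + 1) ^ q) ^ d (i + 2) =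
      (∏ i ∈ Finset.range K, NN n j F (i + 3) ^ d (i + 2)) *
        ∏ i ∈ Finset.range K, NN n j F (i + 1) ^ (q * d (i + 2)) := by
    rw [← Finset.prod_mul_distrib]
    exact Finset.prod_congr rfl fun i _ => by rw [mul_pow, pow_mul]
  rw [h5, mul_pow, pow_mul]
  ring

private theorem ef_cc (hc : ∀ x, Multiset.card (n x) = q + 1)
    (hs : ∀ x y, y ∈ n x → x ∈ n y) (m : ℕ) : ∀ (F : V → ℝ) (K : ℕ), m + 1 ≤ K →
      ef n F m j = ∏ i ∈ Finset.range K, NN n j F i ^ cc q m i := by
  induction m using Nat.twoStepInduction with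
  | zero =>
    intro F K _
    simp [ef, cc]
  | one =>
    intro F K hK
    simp only [cc, ef]
    rw [Finset.prod_eq_single 1]
    · simp [NN, S, Tf, Multiset.map_map]
    · intro i _ hi
      rw [if_neg hi, pow_zero]
    · intro h
      exact absurd (Finset.mem_range.2 (by omega)) h
  | more m ih0 ih1 =>
    intro F K hK
    obtain ⟨K, rfl⟩ : ∃ k, K = k + 3 := ⟨K - 3, by omega⟩
    have e1 : ef n F (m + 2) j = ef n (Tf n F) (m + 1) j * ef n F m j := by
      rw [ef_Tf]
      rfl
    rw [e1, ih1 (Tf n F) (K + 2) (by omega), ih0 F (K + 3) (by omega),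
      prod_Tf hc hs F _ K fun i hi => cc_zero (m + 1) i (by omega), ← Finset.prod_mul_distrib]
    exact Finset.prod_congr rfl fun i _ => by rw [← pow_add]; rfl

theorem exists_coeff (hq : Odd q) (hc : ∀ x, Multiset.card (n x) = q + 1)
    (hs : ∀ x y, y ∈ n x → x ∈ n y) :
    ∃ c : ℕ → ℕ → ℕ, (∀ m, 1 ≤ m → c m m = 1) ∧ (∀ m i, i ≠ m → Even (c m i)) ∧
      ∀ (F : V → ℝ) (m : ℕ), ef n F m j = ∏ i ∈ Finset.range (m + 1), NN n j F i ^ c m i :=
  ⟨cc q, fun m => (cc_par hq m).1, fun m => (cc_par hq m).2,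
    fun F m => ef_cc hc hs m F (m + 1) le_rfl⟩

end Pool.Agent.SSG
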