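import Pool.Agent.Work.MP_a5099b_nt.G.Defs

/-!
# Module G.Res (size S-M): the neighbours

PROOFS.
* `sp Φ x` is monic of degree `Φ.natDegree`, it splits (`IsAlgClosed.splits`), so `card_nb`, `mem_nb`, `sp_eq_prod`.
* `ev_symm`: `ev Φ x y` is `Polynomial.aevalAeval x y Φ` (or prove additivity / monomials);
  `Bivariate.aevalAeval_swap`.
-/

set_option autoImplicit false

namespace Pool.Agent.SSG

open Polynomial

open scoped Polynomial.Bivariate

variable {L : Type*} [Field L]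

theorem sp_monic {Φ : ℤ[X][Y]} (hΦ : Φ.Monic) (x : L) : (sp Φ x).Monic := hΦ.map _

theorem mem_nb {Φ : ℤ[X][Y]} (hΦ : Φ.Monic) {x y : L} : y ∈ nb Φ x ↔ ev Φ x y = 0 := by
  unfold nb ev
  rw [mem_roots (sp_monic hΦ x).ne_zero]
  rfl

private noncomputable def evHom (x y : L) : ℤ[X][Y] →+* L :=
  (evalRingHom y).comp (mapRingHom (aeval x : ℤ[X] →ₐ[ℤ] L).toRingHom)

private theorem evHom_apply (x y : L) (Φ : ℤ[X][Y]) : evHom x y Φ = ev Φ x y := rfl

private theorem ev_swap (Φ : ℤ[X][Y]) (x y : L) : ev (Bivariate.swap Φ) y x = ev Φ x y := by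
  have h : (evHom y x).comp (Bivariate.swap (R := ℤ)).toRingHom = evHom x y := by
    refine Polynomial.ringHom_ext' (Polynomial.ringHom_ext' (RingHom.ext_int _ _) ?_) ?_
    · show ev (Bivariate.swap (C X : ℤ[X][Y])) y x = ev (C X : ℤ[X][Y]) x y
      rw [Bivariate.swap_X]
      simp [ev, sp]
    · show ev (Bivariate.swap (X : ℤ[X][Y])) y x = ev (X : ℤ[X][Y]) x y
      rw [Bivariate.swap_Y]
      simp [ev, sp]
  have h2 := DFunLike.congr_fun h Φ
  exact h2

theorem ev_symm {Φ : ℤ[X][Y]} (h : Bivariate.swap Φ = Φ) (x y : L) : ev Φ x y = ev Φ y x := by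
  rw [← ev_swap Φ y x, h]

theorem nb_symm {Φ : ℤ[X][Y]} (hΦ : Φ.Monic) (h : Bivariate.swap Φ = Φ) {x y : L}
    (hy : y ∈ nb Φ x) : x ∈ nb Φ y := by
  rw [mem_nb hΦ] at hy ⊢
  rw [ev_symm h]
  exact hy

variable [IsAlgClosed L]

theorem card_nb {Φ : ℤ[X][Y]} (hΦ : Φ.Monic) (x : L) :
    Multiset.card (nb Φ x) = Φ.natDegree := by
  unfold nb
  rw [← (IsAlgClosed.splits (sp Φ x)).natDegree_eq_card_roots]
  exact hΦ.natDegree_map _

theorem sp_eq_prod {Φ : ℤ[X][Y]} (hΦ : Φ.Monic) (x : L) :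
    sp Φ x = ((nb Φ x).map fun y => X - C y).prod := by
  have h := (IsAlgClosed.splits (sp Φ x)).eq_prod_roots
  rw [(sp_monic hΦ x).leadingCoeff, C_1, one_mul] at h
  exact h

end Pool.Agent.SSG
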